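import Mathlib
import Pool.Agent.H97.Fek

set_option autoImplicit false

namespace Pool.Agent.Results.MP_9ec5dc_an.Lower

open Filter Topology

/-- The product of the mutual distances over unordered pairs. -/
noncomputable def vp {n : ℕ} (w : Fin n → ℂ) : ℝ := ∏ i, ∏ j ∈ Finset.Ioi i, ‖w i - w j‖

/-- The largest such product for `n` points of `E`. -/
noncomputable def V (E : Set ℂ) (n : ℕ) : ℝ := sSup (vp '' {w : Fin n → ℂ | ∀ i, w i ∈ E})

/-- The `n`-th diameter: `dn E n ^ (n (n - 1) / 2) = V E n`. -/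
noncomputable def dn (E : Set ℂ) (n : ℕ) : ℝ := V E n ^ ((2 : ℝ) / (n * (n - 1)))

theorem result (E : Set ℂ) (hE : IsCompact E) (hd : Tendsto (dn E) atTop (𝓝 1)) (n : ℕ)
    (hn : 2 ≤ n) : (n : ℝ) ^ ((1 : ℝ) / (n - 1)) ≤ dn E n :=
  Pool.Agent.H97.Fek.main hE hd hn

end Pool.Agent.Results.MP_9ec5dc_an.Lower
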